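import Pool.Agent.Helper17.SA.St2

set_option autoImplicit false

/-! Project SA, module O8 (written by helper13). -/

namespace Pool.Agent.Helper13.SA

open Equiv Pool.Agent.Helper17.SA

/-- level of the common block, for numbers below 8 -/
def D8 (i j : ℕ) : ℕ :=
  bif Nat.beq i j then 0 else bif Nat.beq (i / 2) (j / 2) then 1 else
    bif Nat.beq (i / 4) (j / 4) then 2 else 3

/-- the first permutation -/
def fa (i : ℕ) : ℕ := [2, 4, 7, 6, 5, 1, 0, 3].getD i 0
/-- the second permutation -/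
def fb (i : ℕ) : ℕ := [1, 6, 0, 2, 4, 7, 3, 5].getD i 0

/-- compatibility of the images `a, b` of `s, t` with the three structures -/
def E8 (s t a b : ℕ) : Bool :=
  Nat.beq (D8 a b) (D8 s t) && (Nat.beq (D8 (fa a) (fa b)) (D8 (fa s) (fa t)) &&
    Nat.beq (D8 (fb a) (fb b)) (D8 (fb s) (fb t)))

/-- all values in `L` (images of `L.length - 1, ..., 0`) are compatible with the value `v` for `t` -/
def ok8 (t v : ℕ) : List ℕ → Bool
  | [] => true
  | w :: L => E8 L.length t w v && ok8 t v L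

/-- the search -/
def rig8 : ℕ → List ℕ → Bool
  | 0, L => L == [7, 6, 5, 4, 3, 2, 1, 0]
  | f + 1, L => (List.range 8).all fun v => !(ok8 L.length v L) || rig8 f (v :: L)

theorem rig8_true : rig8 8 [] = true := by decide +kernel

theorem D8_eq : ∀ i j : Fin 8, dd i j = D8 i j := by decide +kernel

/-- the first permutation -/
def xa : Perm (Fin 8) where
  toFun := ![2, 4, 7, 6, 5, 1, 0, 3]
  invFun := ![6, 5, 0, 7, 1, 4, 3, 2]
  left_inv := by decide
  right_inv := by decide

/-- the second permutation -/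
def xb : Perm (Fin 8) where
  toFun := ![1, 6, 0, 2, 4, 7, 3, 5]
  invFun := ![2, 0, 3, 6, 4, 7, 1, 5]
  left_inv := by decide
  right_inv := by decide

theorem xa_eq : ∀ i : Fin 8, ((xa i : Fin 8) : ℕ) = fa i := by decide

theorem xb_eq : ∀ i : Fin 8, ((xb i : Fin 8) : ℕ) = fb i := by decide

/-- the values of `y` at `t - 1, ..., 0` -/
def vals (y : ℕ → ℕ) : ℕ → List ℕ
  | 0 => []
  | t + 1 => y t :: vals y t

theorem vals_length (y : ℕ → ℕ) (t : ℕ) : (vals y t).length = t := by
  induction t with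
  | zero => rfl
  | succ n ih => simp [vals, ih]

theorem ok8_vals (y : ℕ → ℕ) (u : ℕ) (hE : ∀ s < u, E8 s u (y s) (y u) = true) :
    ∀ t ≤ u, ok8 u (y u) (vals y t) = true := by
  intro t
  induction t with
  | zero => intro _; rfl
  | succ n ih =>
    intro hn
    simp only [vals, ok8, vals_length, Bool.and_eq_true]
    exact ⟨hE n (by omega), ih (by omega)⟩

theorem rig8_sound (y : ℕ → ℕ) (hlt : ∀ t < 8, y t < 8)
    (hE : ∀ s t, s < t → t < 8 → E8 s t (y s) (y t) = true) :
    ∀ f t, t + f = 8 → rig8 f (vals y t) = true → vals y 8 = [7, 6, 5, 4, 3, 2, 1, 0] := by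
  intro f
  induction f with
  | zero =>
    intro t ht h
    have : t = 8 := by omega
    subst this
    simpa [rig8] using h
  | succ n ih =>
    intro t ht h
    simp only [rig8, List.all_eq_true, List.mem_range, vals_length] at h
    have h1 := h (y t) (hlt t (by omega))
    have h2 : ok8 t (y t) (vals y t) = true :=
      ok8_vals y t (fun s hs => hE s t hs (by omega)) t le_rfl
    rw [h2] at h1
    simp only [Bool.not_true, Bool.false_or] at h1
    exact ih (t + 1) (by omega) h1

theorem pO8 : StO8 := by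
  refine ⟨xa, xb, ?_⟩
  intro y hy hya hyb
  have h1 : ∀ i j : Fin 8, dd (y i) (y j) = dd i j := hy
  have h2 : ∀ i j : Fin 8, dd (xa (y i)) (xa (y j)) = dd (xa i) (xa j) := by
    intro i j
    have := hya (xa i) (xa j)
    simpa [Perm.mul_apply] using this
  have h3 : ∀ i j : Fin 8, dd (xb (y i)) (xb (y j)) = dd (xb i) (xb j) := by
    intro i j
    have := hyb (xb i) (xb j)
    simpa [Perm.mul_apply] using this
  set g : ℕ → ℕ := fun t => if h : t < 8 then (y ⟨t, h⟩ : ℕ) else 0 with hg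
  have hgv : ∀ i : Fin 8, g i = (y i : ℕ) := by
    intro i
    simp only [hg, i.2, dif_pos]
  have hE : ∀ s t, s < t → t < 8 → E8 s t (g s) (g t) = true := by
    intro s t hst ht
    obtain ⟨i, rfl⟩ : ∃ i : Fin 8, (i : ℕ) = s := ⟨⟨s, hst.trans ht⟩, rfl⟩
    obtain ⟨j, rfl⟩ : ∃ j : Fin 8, (j : ℕ) = t := ⟨⟨t, ht⟩, rfl⟩
    rw [hgv, hgv]
    simp only [E8, Bool.and_eq_true, Nat.beq_eq]
    refine ⟨?_, ?_, ?_⟩
    · rw [← D8_eq, ← D8_eq]; exact h1 i j
    · rw [← xa_eq, ← xa_eq, ← xa_eq, ← xa_eq, ← D8_eq, ← D8_eq]; exact h2 i j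
    · rw [← xb_eq, ← xb_eq, ← xb_eq, ← xb_eq, ← D8_eq, ← D8_eq]; exact h3 i j
  have hlt : ∀ t < 8, g t < 8 := by
    intro t ht
    have := hgv ⟨t, ht⟩
    simp only at this
    rw [this]
    exact (y ⟨t, ht⟩).2
  have hfin := rig8_sound g hlt hE 8 0 rfl rig8_true
  simp only [vals, List.cons.injEq, and_true] at hfin
  obtain ⟨e7, e6, e5, e4, e3, e2, e1, e0⟩ := hfin
  ext i
  rw [Perm.one_apply, ← hgv]
  fin_cases i
  · exact e0
  · exact e1
  · exact e2
  · exact e3
  · exact e4
  · exact e5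
  · exact e6
  · exact e7

end Pool.Agent.Helper13.SA
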