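import Pool.Agent.Helper17.SA.St3

/-!
# Project SA (MP_21f9f3_al), module PER: automorphisms of products of simple groups
-/

set_option autoImplicit false

namespace Pool.Agent.Helper13.SA.PER

open Equiv Pool.Agent.Helper17.SA

variable {Ω : Type} [DecidableEq Ω] {S : Ω → Type} [∀ ω, Group (S ω)]

/-- conjugates of elements of a factor -/
theorem conj_single (n : ∀ ω, S ω) (ω : Ω) (a : S ω) :
    n * Pi.mulSingle ω a * n⁻¹ = Pi.mulSingle ω (n ω * a * (n ω)⁻¹) := by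
  funext i
  by_cases h : i = ω
  · subst h
    simp
  · simp [Pi.mulSingle_eq_of_ne h]

/-- the factor is a normal subgroup -/
theorem normal_range (ω : Ω) : (MonoidHom.mulSingle S ω).range.Normal := by
  refine ⟨?_⟩
  rintro _ ⟨a, rfl⟩ g
  refine ⟨g ω * a * (g ω)⁻¹, ?_⟩
  rw [MonoidHom.mulSingle_apply, MonoidHom.mulSingle_apply, conj_single]

/-- simple nonabelian groups have trivial centre -/
theorem exists_comm {T : Type} [Group T] (hs : IsSimpleGroup T) (hn : ∃ a b : T, a * b ≠ b * a) (k : T)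
    (hk : k ≠ 1) : ∃ c : T, k * c ≠ c * k := by
  by_contra hcon
  push Not at hcon
  have h1 : k ∈ Subgroup.center T := by
    rw [Subgroup.mem_center_iff]
    intro g
    exact (hcon g).symm
  rcases (inferInstance : (Subgroup.center T).Normal).eq_bot_or_eq_top with h | h
  · rw [h, Subgroup.mem_bot] at h1
    exact hk h1
  · obtain ⟨a, b, hab⟩ := hn
    have h2 : a ∈ Subgroup.center T := by
      rw [h]
      exact Subgroup.mem_top a
    rw [Subgroup.mem_center_iff] at h2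
    exact hab (h2 b).symm

theorem exists_image (hS : ∀ ω, IsSimpleGroup (S ω)) (hN : ∀ ω, ∃ a b : S ω, a * b ≠ b * a)
    (φ : MulAut (∀ ω, S ω)) (ω : Ω) :
    ∃ ω' : Ω, ∀ a : S ω, ∃ b : S ω', φ (Pi.mulSingle ω a) = Pi.mulSingle ω' b := by
  have := hS ω
  obtain ⟨a0, ha0⟩ := exists_ne (1 : S ω)
  have hk : φ (Pi.mulSingle ω a0) ≠ 1 := by
    intro h
    rw [map_eq_one_iff φ φ.injective, Pi.mulSingle_eq_one_iff] at h
    exact ha0 h
  obtain ⟨ω', hω'⟩ : ∃ ω', φ (Pi.mulSingle ω a0) ω' ≠ 1 := by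
    by_contra hcon
    push Not at hcon
    exact hk (funext hcon)
  obtain ⟨c, hc⟩ := exists_comm (hS ω') (hN ω') _ hω'
  refine ⟨ω', ?_⟩
  set k := φ (Pi.mulSingle ω a0) with hkd
  have h1 : k * Pi.mulSingle ω' c * k⁻¹ * (Pi.mulSingle ω' c)⁻¹ =
      Pi.mulSingle ω' (k ω' * c * (k ω')⁻¹ * c⁻¹) := by
    rw [conj_single, ← Pi.mulSingle_inv, ← Pi.mulSingle_mul]
  have h2 : k ω' * c * (k ω')⁻¹ * c⁻¹ ≠ 1 := by
    intro h
    rw [mul_inv_eq_one, mul_inv_eq_iff_eq_mul] at h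
    exact hc h
  obtain ⟨d, hd⟩ : ∃ d, φ d = Pi.mulSingle ω' c := ⟨φ.symm (Pi.mulSingle ω' c), φ.apply_symm_apply _⟩
  have h3 : φ (Pi.mulSingle ω (a0 * (d ω * a0⁻¹ * (d ω)⁻¹))) =
      Pi.mulSingle ω' (k ω' * c * (k ω')⁻¹ * c⁻¹) := by
    rw [Pi.mulSingle_mul, ← conj_single, Pi.mulSingle_inv, ← h1, map_mul, map_mul, map_mul, map_inv, map_inv, hd,
      ← hkd]
    group
  have h4 : a0 * (d ω * a0⁻¹ * (d ω)⁻¹) ≠ 1 := by
    intro h
    rw [h, Pi.mulSingle_one, map_one] at h3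
    exact h2 (Pi.mulSingle_eq_one_iff.mp h3.symm)
  have := normal_range (S := S) ω'
  have h5 : ((MonoidHom.mulSingle S ω').range.comap
      (φ.toMonoidHom.comp (MonoidHom.mulSingle S ω))).Normal := inferInstance
  have h6 : (MonoidHom.mulSingle S ω').range.comap
      (φ.toMonoidHom.comp (MonoidHom.mulSingle S ω)) = ⊤ := by
    rcases h5.eq_bot_or_eq_top with h | h
    · exfalso
      have h7 : a0 * (d ω * a0⁻¹ * (d ω)⁻¹) ∈ (MonoidHom.mulSingle S ω').range.comap
          (φ.toMonoidHom.comp (MonoidHom.mulSingle S ω)) :=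
        ⟨_, h3.symm⟩
      rw [h, Subgroup.mem_bot] at h7
      exact h4 h7
    · exact h
  intro a
  have h8 : a ∈ (MonoidHom.mulSingle S ω').range.comap
      (φ.toMonoidHom.comp (MonoidHom.mulSingle S ω)) := by
    rw [h6]
    exact Subgroup.mem_top a
  obtain ⟨b, hb⟩ := h8
  exact ⟨b, hb.symm⟩

/-- the factor is determined by a nontrivial element -/
theorem single_inj {ω ω' : Ω} {a : S ω} {b : S ω'} (h : (Pi.mulSingle ω a : ∀ ω, S ω) = Pi.mulSingle ω' b)
    (ha : a ≠ 1) : ω = ω' := by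
  by_contra hne
  have h1 := congrFun h ω
  rw [Pi.mulSingle_eq_same, Pi.mulSingle_eq_of_ne hne] at h1
  exact ha h1

theorem pPER : StPER := by
  intro Ω _ _ S _ hS hN
  have hex := exists_image hS hN
  choose s hs using hex
  have huniq : ∀ (φ : MulAut (∀ ω, S ω)) (ω ω' : Ω), (∀ a : S ω, ∃ b : S ω',
      φ (Pi.mulSingle ω a) = Pi.mulSingle ω' b) → s φ ω = ω' := by
    intro φ ω ω' h
    have := hS ω
    obtain ⟨a, ha⟩ := exists_ne (1 : S ω)
    obtain ⟨b, hb⟩ := hs φ ω a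
    obtain ⟨c, hc⟩ := h a
    have h1 : b ≠ 1 := by
      intro h1
      rw [h1, Pi.mulSingle_one, map_eq_one_iff φ φ.injective, Pi.mulSingle_eq_one_iff] at hb
      exact ha hb
    exact single_inj (hb.symm.trans hc) h1
  let f : MulAut (∀ ω, S ω) →* Function.End Ω :=
    { toFun := fun φ ω => s φ ω
      map_one' := by
        funext ω
        exact huniq 1 ω ω fun a => ⟨a, rfl⟩
      map_mul' := by
        intro φ ψ
        funext ω
        refine huniq (φ * ψ) ω (s φ (s ψ ω)) ?_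
        intro a
        obtain ⟨b, hb⟩ := hs ψ ω a
        obtain ⟨c, hc⟩ := hs φ (s ψ ω) b
        refine ⟨c, ?_⟩
        rw [MulAut.mul_apply, hb, hc] }
  have hf : ∀ φ ω, f.toHomPerm φ ω = s φ ω := fun _ _ => rfl
  refine ⟨f.toHomPerm, ?_, ?_⟩
  · intro φ ω a
    exact hs φ ω a
  · intro n
    ext ω
    rw [hf]
    refine huniq _ ω ω ?_
    intro a
    exact ⟨n ω * a * (n ω)⁻¹, by rw [MulAut.conj_apply, conj_single]⟩

end Pool.Agent.Helper13.SA.PER
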